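import Pool.Agent.Work.MP_e8d560_co.G.Final

/-!
Almost all zero-sum equations have `F_E(n) ≥ n ^ (1 - ε)`.

Idea. Let `N` be a prime and let the coefficient vector be `u * (α + t 1 * β 1 + ... + t m * β m)`
modulo `N`, where `α` is a fixed integer vector with exactly one negative coordinate, the `β l` are
fixed, and there is no nontrivial relation with small coefficients between the monomials in
`t 1, ..., t m` with exponents at most `r`. Let `B` be a Behrend set of size `Y ^ (1 - η)` for `α`,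
where `Y ^ ((r + 1) ^ m)` is almost `N`, and let `D` be the set of the residues
`∑ v J * t ^ J` (exponents below `r`, coefficients `v J` in `B`). Comparing the coefficients of the
monomials one after another shows that the equation modulo `N` has only constant solutions in `D`,
and `D` has about `N ^ ((1 - η) * (r / (r + 1)) ^ m)` elements. Integers with digits in `D` in base
`N` give the lower bound. If the coefficient vector has height `H` then a prime `N` of size a power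
of `log H` without small relations exists unless one of at most `(log H) ^ C` integral forms of
bounded degree vanishes at the coordinates; the zeros of these forms are counted with the
Schwartz-Zippel lemma.
-/

namespace Pool.Agent.Results.MP_e8d560_co.AlmostAllEquations

open Finset Filter Pool.Agent.Work.MP_e8d560_co

/-- Exceptional sets of zero-sum equations with `F_E(n) < n ^ (1 - ε)`.
(1) integral vectors in a rational subspace `V` of the zero-sum space which contains a vector with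
exactly one negative coordinate, uniformly in `n`;
(2) all zero-sum equations with `k ≥ 3` terms; (3) zero-sum equations in a rational hyperplane
different from the hyperplanes `∑ i ∈ T, a i = 0`; (4) equations for which `F_E(n)` is comparable to
`n ^ α` for some `α ≤ 1 - ε`; (5) a lower bound for the number of exceptional equations. -/
theorem result :
    (∀ (k : ℕ) (V : Submodule ℚ (Fin k → ℚ)), (∀ v ∈ V, ∑ i, v i = 0) →
      2 ≤ Module.finrank ℚ V → (∃ v ∈ V, ∃ i₀, ∀ i, i ≠ i₀ → 0 < v i) →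
      ∀ ε : ℝ, 0 < ε → ∃ C : ℕ, ∀ H : ℕ, 2 ≤ H →
        Nat.card {a : Fin k → ℤ // (∀ i, |a i| ≤ H) ∧ (fun i => (a i : ℚ)) ∈ V ∧
          ¬ ∀ n : ℕ, 1 ≤ n → (n : ℝ) ^ (1 - ε) ≤ ((C * Nat.log 2 H ^ C : ℕ) : ℝ) * F a n} ≤
            C * H ^ (Module.finrank ℚ V - 1) * Nat.log 2 H ^ C) ∧
    (∀ k : ℕ, 3 ≤ k → ∀ ε : ℝ, 0 < ε → ∃ C : ℕ, ∀ H : ℕ, 2 ≤ H →
      Nat.card {a : Fin k → ℤ // (∀ i, |a i| ≤ H) ∧ ∑ i, a i = 0 ∧
        ¬ ∀ᶠ n : ℕ in atTop, (n : ℝ) ^ (1 - ε) ≤ F a n} ≤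
          C * H ^ (k - 2) * Nat.log 2 H ^ C) ∧
    (∀ k : ℕ, 4 ≤ k → ∀ γ : Fin k → ℤ, (∃ p j q, γ p < γ j ∧ γ j < γ q) →
      ∀ ε : ℝ, 0 < ε → ∃ C : ℕ, ∀ H : ℕ, 2 ≤ H →
      Nat.card {a : Fin k → ℤ // (∀ i, |a i| ≤ H) ∧ ∑ i, a i = 0 ∧ ∑ i, γ i * a i = 0 ∧
        ¬ ∀ᶠ n : ℕ in atTop, (n : ℝ) ^ (1 - ε) ≤ F a n} ≤
          C * H ^ (k - 3) * Nat.log 2 H ^ C) ∧
    (∀ k : ℕ, 3 ≤ k → ∀ ε : ℝ, 0 < ε → ∃ C : ℕ, ∀ H : ℕ, 2 ≤ H →
      Nat.card {a : Fin k → ℤ // (∀ i, a i ≠ 0 ∧ |a i| ≤ H) ∧ ∃ α : ℝ, α ≤ 1 - ε ∧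
        Comparable (F a) α} ≤ C * H ^ (k - 2) * Nat.log 2 H ^ C) ∧
    (∀ k : ℕ, 4 ≤ k → ∃ C : ℕ, ∀ H : ℕ, k ≤ H → H ^ (k - 2) ≤
      C * Nat.card {a : Fin k → ℤ // (∀ i, a i ≠ 0 ∧ |a i| ≤ H) ∧ ∑ i, a i = 0 ∧
        ∃ K : ℝ, ∀ n : ℕ, (F a n : ℝ) ≤ K * √n}) := by
  refine ⟨fun k V hV hd hone ε hε => G.subspace V hV hd hone hε,
    fun k hk ε hε => G.full hk hε, fun k hk γ hγ ε hε => G.hyper hk γ hγ hε,
    fun k hk ε hε => G.orders hk hε, fun k hk => ?_⟩
  obtain ⟨m, rfl⟩ : ∃ m, k = m + 4 := ⟨k - 4, by omega⟩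
  exact G.sharp m

end Pool.Agent.Results.MP_e8d560_co.AlmostAllEquations
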