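import Pool.Agent.Work.MP_e8d560_co.NearOne

namespace Pool.Agent.Results.MP_e8d560_co.ExponentsNearOne

open Finset Filter Pool.Agent.Work.MP_e8d560_co

/-- `t`-part of the coefficients. -/
private def tt (p q : ℕ) (i : ℕ) : ℤ :=
  (if i = p - 1 then ((q : ℤ) - 1) else 0) - (if p ≤ i ∧ i + 1 < p + q then 1 else 0)

private theorem tt_sum (p q : ℕ) (hp : 1 ≤ p) (hq : 1 ≤ q) :
    ∑ i : Fin (p + q), tt p q i = 0 := by
  rw [Fin.sum_univ_eq_sum_range (fun i => tt p q i)]
  simp only [tt]
  rw [Finset.sum_sub_distrib, Finset.sum_ite_eq', if_pos (Finset.mem_range.mpr (by omega)),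
    ← Finset.sum_filter, Finset.sum_const, nsmul_eq_mul, mul_one]
  have h : (range (p + q)).filter (fun i => p ≤ i ∧ i + 1 < p + q) = Ico p (p + q - 1) := by
    ext i
    simp only [Finset.mem_filter, Finset.mem_range, Finset.mem_Ico]
    omega
  rw [h, Nat.card_Ico]
  omega

/-- The coefficients. -/
private def co (p q N : ℕ) (i : Fin (p + q)) : ℤ :=
  1 + N * tt p q i - (if (i : ℕ) + 1 = p + q then ((p + q : ℕ) : ℤ) else 0)

private theorem last_sum (k : ℕ) (hk : 1 ≤ k) (T : Finset (Fin k)) (x : ℤ) :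
    ∑ i ∈ T, (if (i : ℕ) + 1 = k then x else 0) =
      if (⟨k - 1, by omega⟩ : Fin k) ∈ T then x else 0 := by
  have h : ∀ i : Fin k, ((i : ℕ) + 1 = k) ↔ i = ⟨k - 1, by omega⟩ := fun i => by
    rw [Fin.ext_iff]
    simp only
    omega
  simp only [h]
  rw [Finset.sum_ite_eq']

private theorem co_sum (p q N : ℕ) (T : Finset (Fin (p + q))) (hk : 1 ≤ p + q) :
    ∑ i ∈ T, co p q N i = T.card + N * ∑ i ∈ T, tt p q i -
      (if (⟨p + q - 1, by omega⟩ : Fin (p + q)) ∈ T then ((p + q : ℕ) : ℤ) else 0) := by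
  simp only [co]
  rw [Finset.sum_sub_distrib, Finset.sum_add_distrib, ← Finset.mul_sum, last_sum _ hk]
  simp

private theorem tt_val {p q : ℕ} (hp : 1 ≤ p) (i : Fin (p + q)) :
    ((i : ℕ) + 1 < p ∧ tt p q i = 0) ∨ ((i : ℕ) + 1 = p ∧ tt p q i = (q : ℤ) - 1) ∨
      (p ≤ (i : ℕ) ∧ (i : ℕ) + 1 < p + q ∧ tt p q i = -1) ∨
      ((i : ℕ) + 1 = p + q ∧ tt p q i = 0) := by
  have hi := i.isLt
  simp only [tt]
  rcases lt_trichotomy ((i : ℕ) + 1) p with h | h | h
  · left
    rw [if_neg (by omega), if_neg (by omega)]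
    exact ⟨h, by ring⟩
  · right; left
    rw [if_pos (by omega), if_neg (by omega)]
    exact ⟨h, by ring⟩
  · by_cases h2 : (i : ℕ) + 1 < p + q
    · right; right; left
      rw [if_neg (by omega), if_pos (by omega)]
      exact ⟨by omega, h2, by ring⟩
    · right; right; right
      rw [if_neg (by omega), if_neg (by omega)]
      exact ⟨by omega, by ring⟩

/-- (1) If a multiple of the coefficient vector is congruent, modulo a large `N`, to a fixed
zero-sum vector with exactly one negative coordinate, then `F_E(n) ≥ n ^ (1 - ε)`.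
(2) For all `p, q ≥ 1` with `p + q ≥ 3` and `ε > 0` there is an equation with `p` positive and `q`
negative coefficients, zero sum, no proper nonempty zero-sum part, and `F_E(n) ≥ n ^ (1 - ε)` for
all large `n`.
(3) The same for `(h+1) x₁ + (h+1) x₂ = h x₃ + (h+2) x₄`, for all large `h`. -/
theorem result :
    (∀ (k : ℕ), 2 ≤ k → ∀ (c : Fin k → ℤ) (i₀ : Fin k), (∀ i, i ≠ i₀ → 0 < c i) →
      ∑ i, c i = 0 → ∀ ε : ℝ, 0 < ε → ∃ N₀ : ℕ, ∀ N : ℕ, N₀ ≤ N → ∀ a : Fin k → ℤ,
        ∑ i, a i = 0 → ∀ u : ℤ, (∀ i, (N : ℤ) ∣ u * a i - c i) →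
          ∀ᶠ n : ℕ in atTop, (n : ℝ) ^ (1 - ε) ≤ F a n) ∧
    (∀ p q : ℕ, 1 ≤ p → 1 ≤ q → 3 ≤ p + q → ∀ ε : ℝ, 0 < ε → ∃ a : Fin (p + q) → ℤ,
      (∀ i, a i ≠ 0) ∧ ∑ i, a i = 0 ∧
      (∀ T : Finset (Fin (p + q)), T.Nonempty → T ≠ univ → ∑ i ∈ T, a i ≠ 0) ∧
      (univ.filter (fun i => 0 < a i)).card = p ∧ (univ.filter (fun i => a i < 0)).card = q ∧
      ∀ᶠ n : ℕ in atTop, (n : ℝ) ^ (1 - ε) ≤ F a n) ∧
    (∀ ε : ℝ, 0 < ε → ∃ H : ℕ, ∀ h : ℕ, H ≤ h →
      ∀ᶠ n : ℕ in atTop,
        (n : ℝ) ^ (1 - ε) ≤ F ![(h : ℤ) + 1, (h : ℤ) + 1, -(h : ℤ), -((h : ℤ) + 2)] n) := by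
  classical
  refine ⟨fun k hk c i₀ hpos hc ε hε => near_one hk c i₀ hpos hc hε, ?_, ?_⟩
  · intro p q hp hq hpq ε hε
    have hk1 : 1 ≤ p + q := by omega
    set l : Fin (p + q) := ⟨p + q - 1, by omega⟩ with hl
    set c : Fin (p + q) → ℤ := fun i => 1 - (if (i : ℕ) + 1 = p + q then ((p + q : ℕ) : ℤ) else 0)
      with hc
    have hcpos : ∀ i, i ≠ l → 0 < c i := by
      intro i hi
      have : ¬ ((i : ℕ) + 1 = p + q) := fun h => hi (by rw [hl, Fin.ext_iff]; simp only; omega)
      simp only [hc, if_neg this]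
      norm_num
    have hcsum : ∑ i, c i = 0 := by
      simp only [hc]
      rw [Finset.sum_sub_distrib, last_sum _ hk1, if_pos (Finset.mem_univ _)]
      simp
    obtain ⟨N₀, hN₀⟩ := near_one (k := p + q) (by omega) c l hcpos hcsum hε
    set N := max N₀ (p + q + 1) with hN
    have hNk : p + q + 1 ≤ N := le_max_right _ _
    have hNZ : ((p + q : ℕ) : ℤ) + 1 ≤ N := by exact_mod_cast hNk
    have htot : ∑ i, co p q N i = 0 := by
      rw [co_sum p q N univ hk1, tt_sum p q hp hq, if_pos (Finset.mem_univ _), Finset.card_univ,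
        Fintype.card_fin]
      ring
    have hsign : ∀ i : Fin (p + q), ((i : ℕ) < p → 0 < co p q N i) ∧
        (p ≤ (i : ℕ) → co p q N i < 0) := by
      intro i
      have hi := i.isLt
      have hq' : (1 : ℤ) ≤ q := by exact_mod_cast hq
      have hpqZ : ((p + q : ℕ) : ℤ) ≥ 3 := by exact_mod_cast hpq
      simp only [co]
      rcases tt_val hp i with ⟨h, ht⟩ | ⟨h, ht⟩ | ⟨h, h', ht⟩ | ⟨h, ht⟩
      · rw [ht, if_neg (by omega)]
        exact ⟨fun _ => by norm_num, fun g => absurd g (by omega)⟩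
      · rw [ht, if_neg (by omega)]
        refine ⟨fun _ => ?_, fun g => absurd g (by omega)⟩
        have : 0 ≤ (N : ℤ) * ((q : ℤ) - 1) := mul_nonneg (by positivity) (by linarith)
        linarith
      · rw [ht, if_neg (by omega)]
        exact ⟨fun g => absurd g (by omega), fun _ => by linarith⟩
      · rw [ht, if_pos h]
        exact ⟨fun g => absurd g (by omega), fun _ => by linarith⟩
    have hcardlt : (univ.filter (fun i : Fin (p + q) => (i : ℕ) < p)).card = p := by
      rw [Fin.card_filter_val_lt]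
      omega
    refine ⟨co p q N, ?_, htot, ?_, ?_, ?_, ?_⟩
    · intro i
      rcases lt_or_ge (i : ℕ) p with h | h
      · exact ((hsign i).1 h).ne'
      · exact ((hsign i).2 h).ne
    · intro T hT1 hT2 hT3
      rw [co_sum p q N T hk1] at hT3
      have h1 : 1 ≤ T.card := Finset.card_pos.mpr hT1
      have h2 : T.card < p + q := by
        have := Finset.card_lt_card (Finset.ssubset_univ_iff.mpr hT2)
        rwa [Finset.card_univ, Fintype.card_fin] at this
      have h1' : (1 : ℤ) ≤ T.card := by exact_mod_cast h1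
      have h2' : (T.card : ℤ) + 1 ≤ ((p + q : ℕ) : ℤ) := by exact_mod_cast h2
      split_ifs at hT3 with hlT
      · have hd : (N : ℤ) ∣ ((p + q : ℕ) : ℤ) - T.card := ⟨∑ i ∈ T, tt p q i, by linarith⟩
        have := Int.le_of_dvd (by linarith) hd
        linarith
      · have hd : (N : ℤ) ∣ (T.card : ℤ) := ⟨-∑ i ∈ T, tt p q i, by linarith⟩
        have := Int.le_of_dvd (by linarith) hd
        linarith
    · have hgt : (univ.filter (fun i : Fin (p + q) => 0 < co p q N i)) =
          (univ.filter (fun i : Fin (p + q) => (i : ℕ) < p)) := by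
        ext i
        simp only [Finset.mem_filter, Finset.mem_univ, true_and]
        constructor
        · intro h
          by_contra hcon
          exact absurd ((hsign i).2 (by omega)) (by linarith)
        · exact (hsign i).1
      rw [hgt, hcardlt]
    · have hge : (univ.filter (fun i : Fin (p + q) => co p q N i < 0)) =
          univ \ (univ.filter (fun i : Fin (p + q) => (i : ℕ) < p)) := by
        ext i
        simp only [Finset.mem_filter, Finset.mem_univ, true_and, Finset.mem_sdiff]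
        constructor
        · intro h hcon
          exact absurd ((hsign i).1 hcon) (by linarith)
        · intro h
          exact (hsign i).2 (by omega)
      rw [hge, Finset.card_sdiff_of_subset (Finset.subset_univ _), hcardlt, Finset.card_univ,
        Fintype.card_fin]
      omega
    · apply hN₀ N (le_max_left _ _) (co p q N) htot 1
      intro i
      refine ⟨tt p q i, ?_⟩
      simp only [co, hc]
      ring
  · intro ε hε
    obtain ⟨N₀, hN₀⟩ := near_one (k := 4) (by norm_num) ![1, 1, 1, -3] 3 (by decide) (by decide) hε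
    refine ⟨N₀, fun h hh => ?_⟩
    apply hN₀ (2 * h + 1) (by omega) _ _ 2
    · intro i
      fin_cases i
      · exact ⟨1, by simp; ring⟩
      · exact ⟨1, by simp; ring⟩
      · exact ⟨-1, by simp; ring⟩
      · exact ⟨-1, by simp; ring⟩
    · simp [Fin.sum_univ_four]
      ring

end Pool.Agent.Results.MP_e8d560_co.ExponentsNearOne
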