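import Pool.Agent.Work.MP_e8d560_co.Genus
import Pool.Agent.Work.MP_e8d560_co.Convex

namespace Pool.Agent.Results.MP_e8d560_co.OnlyGenusOne

open Finset Filter Pool.Agent.Work.MP_e8d560_co

/-- An equation whose coefficients split into two nonempty zero-sum parts has
`F_E(n) = O(√n)`; and if `F_E(n)` is comparable to `n ^ α` with `1/2 < α < 1`, then the
coefficients sum to zero, no proper nonempty part of them does, and at least two of them are
positive and at least two negative. -/
theorem result {k : ℕ} (hk : 3 ≤ k) (a : Fin k → ℤ) (ha : ∀ i, a i ≠ 0) :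
    ((∑ i, a i = 0) → (∃ T : Finset (Fin k), T.Nonempty ∧ T ≠ univ ∧ ∑ i ∈ T, a i = 0) →
      ∃ C : ℝ, ∀ n : ℕ, (F a n : ℝ) ≤ C * √n) ∧
    ∀ α : ℝ, 1 / 2 < α → α < 1 → Comparable (F a) α →
      ∑ i, a i = 0 ∧ (∀ T : Finset (Fin k), T.Nonempty → T ≠ univ → ∑ i ∈ T, a i ≠ 0) ∧
        2 ≤ (univ.filter (fun i => 0 < a i)).card ∧ 2 ≤ (univ.filter (fun i => a i < 0)).card := by
  classical
  have part1 : (∑ i, a i = 0) →
      (∃ T : Finset (Fin k), T.Nonempty ∧ T ≠ univ ∧ ∑ i ∈ T, a i = 0) →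
      ∃ C : ℝ, ∀ n : ℕ, (F a n : ℝ) ≤ C * √n := by
    rintro h0 ⟨T, hT1, hT2, hT3⟩
    obtain ⟨K, hK⟩ := genus_bound a ha T hT1 hT2 hT3 h0
    refine ⟨√K, fun n => ?_⟩
    obtain ⟨A, hA1, hA2, hA3⟩ := F_attained (by omega) a n
    have := hK n A hA1 hA2
    rw [hA3] at this
    rw [← Real.sqrt_mul (by positivity)]
    apply Real.le_sqrt_of_sq_le
    exact_mod_cast this
  refine ⟨part1, fun α hα1 hα2 hcomp => ?_⟩
  have h0 : ∑ i, a i = 0 := by
    by_contra hne
    obtain ⟨M, hM, hF⟩ := linear a hne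
    refine growth hcomp hM le_rfl (c := 1) (e := 1) one_pos (by simpa using hα2) (fun D _ => ?_)
    rw [Real.rpow_one, one_mul, pow_one]
    exact_mod_cast hF D
  have convexcase : ∀ (b : Fin k → ℤ), F b = F a → ∑ i, b i = 0 →
      ∀ i0, (∀ i, i ≠ i0 → 0 < b i) → False := by
    intro b hb hb0 i0 hpos
    obtain ⟨d, hd⟩ := exists_nat_gt (2 / (1 - α))
    have hα3 : 0 < 1 - α := by linarith
    have hd2 : 2 < (1 - α) * d := by
      rw [div_lt_iff₀ hα3] at hd
      linarith
    have hd0 : (0 : ℝ) < d := by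
      by_contra hcon
      push Not at hcon
      nlinarith
    have hdn : 1 ≤ d := by exact_mod_cast hd0
    obtain ⟨s, hs, hF⟩ := convex (by omega) b i0 hpos hb0 d
    refine growth hcomp hs hdn (c := 1 / d) (e := d - 2) (by positivity) (by linarith)
      (fun D hD => ?_)
    have h1 := hF D hD
    rw [hb] at h1
    have hDp : (0 : ℝ) < D := by exact_mod_cast hD
    refine le_trans (le_of_eq ?_) h1
    rw [Real.rpow_sub hDp, Real.rpow_natCast]
    have : (D : ℝ) ^ (2 : ℝ) = (D : ℝ) ^ 2 := by norm_cast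
    rw [this]
    field_simp
  have hcards : ∀ (b : Fin k → ℤ), (∀ i, b i ≠ 0) → F b = F a → ∑ i, b i = 0 →
      2 ≤ (univ.filter (fun i => b i < 0)).card := by
    intro b hbne hb hb0
    by_contra hcon
    push Not at hcon
    have h1 : (univ.filter (fun i => b i < 0)).card = 0 ∨
        (univ.filter (fun i => b i < 0)).card = 1 := by omega
    rcases h1 with h1 | h1
    · rw [Finset.card_eq_zero, Finset.filter_eq_empty_iff] at h1
      have : 0 < ∑ i, b i := by
        apply Finset.sum_pos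
        · intro i _
          have := h1 (Finset.mem_univ i)
          have := hbne i
          omega
        · exact ⟨⟨0, by omega⟩, Finset.mem_univ _⟩
      omega
    · obtain ⟨i0, hi0⟩ := Finset.card_eq_one.mp h1
      apply convexcase b hb hb0 i0
      intro i hi
      have h2 : i ∉ univ.filter (fun i => b i < 0) := by
        rw [hi0]; simpa using hi
      rw [Finset.mem_filter] at h2
      have := hbne i
      have : ¬ b i < 0 := fun g => h2 ⟨Finset.mem_univ _, g⟩
      omega
  refine ⟨h0, ?_, ?_, ?_⟩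
  · intro T hT1 hT2 hT3
    obtain ⟨C, hC⟩ := part1 h0 ⟨T, hT1, hT2, hT3⟩
    obtain ⟨c₁, c₂, h1, h2, h3⟩ := hcomp
    have t2 : Tendsto (fun n : ℕ => (n : ℝ) ^ (α - 1 / 2)) atTop atTop :=
      (tendsto_rpow_atTop (by linarith)).comp tendsto_natCast_atTop_atTop
    have e2 := t2.eventually (eventually_gt_atTop (C / c₁))
    obtain ⟨n, g1, g2, g3⟩ := (h3.and (e2.and (eventually_ge_atTop 1))).exists
    have hn : (0 : ℝ) < n := by exact_mod_cast g3
    have g4 := g1.1.trans (hC n)
    have g5 : (n : ℝ) ^ α = (n : ℝ) ^ (α - 1 / 2) * √n := by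
      rw [Real.sqrt_eq_rpow, ← Real.rpow_add hn]
      congr 1
      ring
    rw [g5] at g4
    have hpos : 0 < √(n : ℝ) := Real.sqrt_pos.mpr hn
    rw [div_lt_iff₀ h1] at g2
    nlinarith
  · have := hcards (fun i => - a i) (fun i => neg_ne_zero.mpr (ha i)) (F_neg a)
      (by rw [Finset.sum_neg_distrib, h0, neg_zero])
    refine le_trans this (le_of_eq ?_)
    congr 1
    ext i
    simp
  · exact hcards a ha rfl h0

end Pool.Agent.Results.MP_e8d560_co.OnlyGenusOne
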